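import Pool.Agent.H44Cliq.Main

/-!
# The clique achievement number formula with uniform error 3, outside a finite window

`achievement N` is the clique achievement number of `K_N` and `f N` the function of the problem
(both defined in `Pool.Agent.H44Cliq.Defs`).  The upper half of the formula is proved for all
`N ≥ 2`, the lower half for all `N ≥ 2` with `N ≤ 268` or `N ≥ 11200`.
-/

namespace Pool.Agent.Results.MP_ef1d07_co.UniformErrorOffWindow

open Pool.Agent.H44Cliq

theorem result : ∀ N : ℕ, 2 ≤ N →
    (achievement N : ℝ) ≤ f N + 3 ∧
      (N ≤ 268 ∨ 11200 ≤ N →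
        f N - 4 < achievement N ∧
          ∃ ε : ℝ, |ε| ≤ 3 ∧ (achievement N : ℤ) = ⌊f N + ε⌋) := by
  intro N hN
  refine ⟨achievement_le hN, fun h => ?_⟩
  have h1 : f N - 4 < achievement N := by
    rcases h with h | h
    · exact lower_small hN h
    · exact lower_large h
  exact ⟨h1, exists_eps h1 (achievement_le hN)⟩

end Pool.Agent.Results.MP_ef1d07_co.UniformErrorOffWindow
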